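import Pool.Agent.Lib.MP_ab57f0_an.Traj

set_option autoImplicit false

namespace Pool.Agent.Results.MP_ab57f0_an.DenseEscape

open Metric

/-- Finitely many pairwise disjoint closed disks and a source `p` outside all of them: every arc
of directions contains a whole subarc of rays that are reflected finitely many times, always
transversally, and then leave along a half-line that meets no disk. -/
theorem result {ι : Type} [Finite ι] (c : ι → EuclideanSpace ℝ (Fin 2)) (r : ι → ℝ)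
    (hr : ∀ i, 0 < r i)
    (hdisj : Pairwise fun i j => Disjoint (closedBall (c i) (r i)) (closedBall (c j) (r j)))
    (p : EuclideanSpace ℝ (Fin 2)) (hp : ∀ i, p ∉ closedBall (c i) (r i))
    (a b : ℝ) (hab : a < b) :
    ∃ a' b' : ℝ, a ≤ a' ∧ a' < b' ∧ b' ≤ b ∧ ∀ θ : ℝ, a' < θ → θ < b' →
      ∃ (N : ℕ) (q d : ℕ → EuclideanSpace ℝ (Fin 2)),
        q 0 = p ∧ d 0 0 = Real.cos θ ∧ d 0 1 = Real.sin θ ∧
        (∀ n < N, ∃ (i : ι) (t : ℝ), 0 < t ∧ q (n + 1) = q n + t • d n ∧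
          (∀ s : ℝ, 0 < s → s < t → ∀ j, q n + s • d n ∉ closedBall (c j) (r j)) ∧
          q (n + 1) ∈ sphere (c i) (r i) ∧ inner ℝ (d n) (q (n + 1) - c i) < 0 ∧
          d (n + 1) = (Submodule.span ℝ {q (n + 1) - c i})ᗮ.reflection (d n)) ∧
        ‖d N‖ = 1 ∧ ∀ s : ℝ, 0 < s → ∀ j, q N + s • d N ∉ closedBall (c j) (r j) := by
  obtain ⟨a', b', e1, e2, e3, e4⟩ := Pool.Agent.Lib.MP_ab57f0_an.escape_plane c r p hr
    (fun i j hij => (disjoint_closedBall_closedBall_iff (hr i).le (hr j).le).1 (hdisj hij))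
    (fun i => lt_of_not_ge (hp i)) hab
  refine ⟨a', b', e1, e2, e3, fun θ h1 h2 => ?_⟩
  obtain ⟨N, q, d, a1, a2, a3, a4⟩ := e4 θ ⟨h1, h2⟩
  have hn : ∀ n ≤ N, ‖d n‖ = 1 := by
    intro n
    induction n with
    | zero =>
      intro _
      rw [a2, EuclideanSpace.norm_eq]
      simp
    | succ n ih =>
      intro h
      obtain ⟨i, t, _, _, _, _, _, b6⟩ := a3 n h
      rw [b6, LinearIsometryEquiv.norm_map]
      exact ih (by omega)
  refine ⟨N, q, d, a1, by rw [a2]; rfl, by rw [a2]; rfl, fun n hn => ?_, hn N le_rfl,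
    fun s hs j => not_le.2 (a4 s hs j)⟩
  obtain ⟨i, t, b1, b2, b3, b4, b5, b6⟩ := a3 n hn
  exact ⟨i, t, b1, b2, fun s s0 s1 j => not_le.2 (b3 s s0 s1 j), b4, b5, b6⟩

end Pool.Agent.Results.MP_ab57f0_an.DenseEscape
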