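import Pool.Agent.Lib.MP_ab57f0_an.LongTrap

set_option autoImplicit false

namespace Pool.Agent.Results.MP_ab57f0_an.LongTrap

open Pool.Agent.Lib.MP_ab57f0_an.LT

/-- Three congruent mirrors that almost touch keep all the light of every source in a fixed disc
for any prescribed number of reflections. -/
theorem result : ∃ (c : Fin 3 → EuclideanSpace ℝ (Fin 2)) (p : EuclideanSpace ℝ (Fin 2)),
    (∀ i j, i ≠ j → dist (c i) (c j) = 2) ∧ (∀ i, 1 + 1 / 50 < dist p (c i)) ∧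
    ∀ N : ℕ, ∃ r₀ : ℝ, 0 < r₀ ∧ r₀ < 1 ∧ ∀ r : ℝ, r₀ < r → r < 1 →
      ∀ (n : ℕ) (q d : ℕ → EuclideanSpace ℝ (Fin 2)), dist (q 0) p ≤ 1 / 50 → ‖d 0‖ = 1 →
        (∀ i < n, ∃ (j : Fin 3) (t : ℝ), 0 < t ∧ q (i + 1) = q i + t • d i ∧
          dist (q (i + 1)) (c j) = r ∧
          (∀ s : ℝ, 0 < s → s < t → ∀ k, r ≤ dist (q i + s • d i) (c k)) ∧
          d (i + 1) = d i - (2 * inner ℝ (d i) (q (i + 1) - c j) / r ^ 2) • (q (i + 1) - c j)) →
        (∀ s : ℝ, 0 < s → ∀ k, r ≤ dist (q n + s • d n) (c k)) → N ≤ n := by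
  obtain ⟨w, w0, w2⟩ : ∃ w : ℝ, 0 < w ∧ w ^ 2 = 3 :=
    ⟨√3, Real.sqrt_pos.2 (by norm_num), Real.sq_sqrt (by norm_num)⟩
  have w1 : w < 2 := by nlinarith
  have ds : ∀ x y : E, dist x y ^ 2 = (x 0 - y 0) ^ 2 + (x 1 - y 1) ^ 2 := by
    intro x y
    rw [EuclideanSpace.dist_eq, Real.sq_sqrt (by positivity), Fin.sum_univ_two, Real.dist_eq,
      Real.dist_eq, sq_abs, sq_abs]
  have ip : ∀ x y : E, inner ℝ x y = x 0 * y 0 + x 1 * y 1 := by
    intro x y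
    simp [PiLp.inner_apply, Fin.sum_univ_two]
    ring
  let c : Fin 3 → E := ![!₂[-1, 0], !₂[1, 0], !₂[0, w]]
  let u : Fin 3 → E := ![!₂[1 / 2, -w / 2], !₂[1 / 2, w / 2], !₂[-1, 0]]
  let P : Fin 3 → E := ![!₂[1 / 2, w / 2], !₂[-1 / 2, w / 2], !₂[0, 0]]
  let p : E := !₂[1 / 20, w / 3]
  let g : E → ℝ := fun y => min (y 1) (min (3 * (1 - y 0) - w * y 1) (3 * (1 + y 0) - w * y 1))
  have hG : Geo c u P := by
    intro k
    refine ⟨?_, ?_, ?_, ?_⟩
    · rw [← pow_left_inj₀ (norm_nonneg _) zero_le_one two_ne_zero, ← real_inner_self_eq_norm_sq, ip]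
      fin_cases k <;> simp [u] <;> nlinarith
    · ext i
      fin_cases k <;> fin_cases i <;> simp [c, u, P] <;> ring
    · ext i
      fin_cases k <;> fin_cases i <;> simp [c, u, P] <;> ring
    · rw [ip]
      fin_cases k <;> simp [c, u, P] <;> nlinarith
  have w3 : 1 < w := by nlinarith
  have near : ∀ x ∈ Metric.closedBall p (1 / 50), |x 0 - 1 / 20| ≤ 1 / 50 ∧ |x 1 - w / 3| ≤ 1 / 50 ∧
      (x 0 - 1 / 20) ^ 2 + (x 1 - w / 3) ^ 2 ≤ (1 / 50) ^ 2 := by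
    intro x hx
    have h1 : dist x p ^ 2 ≤ (1 / 50) ^ 2 := pow_le_pow_left₀ dist_nonneg hx 2
    rw [ds] at h1
    have h2 : (x 0 - 1 / 20) ^ 2 + (x 1 - w / 3) ^ 2 ≤ (1 / 50) ^ 2 := h1
    refine ⟨abs_le_of_sq_le_sq ?_ (by norm_num), abs_le_of_sq_le_sq ?_ (by norm_num), h2⟩ <;>
      nlinarith [sq_nonneg (x 0 - 1 / 20), sq_nonneg (x 1 - w / 3)]
  refine ⟨c, p, fun i j hij => ?_, fun i => ?_,
    long_trap hG (isCompact_closedBall p (1 / 50)) (fun x hx k => ?_) g (by fun_prop)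
      (fun x hx => ?_) (fun x y hx hy => ?_) fun y hy h => ?_⟩
  · rw [← pow_left_inj₀ dist_nonneg zero_le_two two_ne_zero, ds]
    fin_cases i <;> fin_cases j <;> simp [c] at hij ⊢ <;> nlinarith
  · refine lt_of_pow_lt_pow_left₀ 2 dist_nonneg ?_
    rw [ds]
    fin_cases i <;> simp [c, p] <;> nlinarith
  · obtain ⟨n1, -, n3⟩ := near x hx
    obtain ⟨n4, n5⟩ := abs_le.1 n1
    have e1 : x 1 * w = (x 1 - w / 3) * w + 1 := by nlinarith
    have n6 : ((x 0 - 1 / 20) - (x 1 - w / 3) * w) ^ 2 ≤ (1 / 25) ^ 2 := by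
      nlinarith [sq_nonneg ((x 0 - 1 / 20) * w + (x 1 - w / 3))]
    have n7 : ((x 0 - 1 / 20) + (x 1 - w / 3) * w) ^ 2 ≤ (1 / 25) ^ 2 := by
      nlinarith [sq_nonneg ((x 0 - 1 / 20) * w - (x 1 - w / 3))]
    obtain ⟨n8, n9⟩ := abs_le.1 (abs_le_of_sq_le_sq n6 (by norm_num))
    obtain ⟨n10, n11⟩ := abs_le.1 (abs_le_of_sq_le_sq n7 (by norm_num))
    rw [ip]
    fin_cases k <;> simp [c, u] <;> intro h <;> nlinarith
  · obtain ⟨n1, n2, -⟩ := near x hx
    obtain ⟨n4, n5⟩ := abs_le.1 n1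
    obtain ⟨n6, n7⟩ := abs_le.1 n2
    simp only [g, lt_min_iff]
    refine ⟨?_, ?_, ?_⟩ <;> nlinarith
  · simp only [g, le_min_iff] at hx hy
    obtain ⟨x1, x2, x3⟩ := hx
    obtain ⟨y1, y2, y3⟩ := hy
    refine le_of_pow_le_pow_left₀ two_ne_zero (by norm_num) ?_
    rw [ds]
    have a1 : 0 ≤ w * x 1 := by positivity
    have a2 : 0 ≤ w * y 1 := by positivity
    have a3 : x 1 ≤ 2 := by nlinarith
    have a4 : y 1 ≤ 2 := by nlinarith
    have a5 : (x 0 - y 0) ^ 2 ≤ 4 := by nlinarith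
    have a6 : (x 1 - y 1) ^ 2 ≤ 4 := by nlinarith
    linarith
  · have b0 := one_le_pow₀ (n := 2) (h 0)
    have b1 := one_le_pow₀ (n := 2) (h 1)
    have b2 := one_le_pow₀ (n := 2) (h 2)
    rw [ds] at b0 b1 b2
    simp [c] at b0 b1 b2
    have hy' := hy.ge
    simp only [g, le_min_iff] at hy'
    obtain ⟨y1, y2, y3⟩ := hy'
    have a2 : 0 ≤ w * y 1 := by positivity
    have cs : y 1 = 0 ∨ 3 * (1 - y 0) - w * y 1 = 0 ∨ 3 * (1 + y 0) - w * y 1 = 0 := by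
      simp only [g] at hy
      rcases min_choice (y 1) (min (3 * (1 - y 0) - w * y 1) (3 * (1 + y 0) - w * y 1)) with
        e | e
      · exact Or.inl (e.symm.trans hy)
      · rcases min_choice (3 * (1 - y 0) - w * y 1) (3 * (1 + y 0) - w * y 1) with e' | e'
        · exact Or.inr (Or.inl (e'.symm.trans (e.symm.trans hy)))
        · exact Or.inr (Or.inr (e'.symm.trans (e.symm.trans hy)))
    rcases cs with e | e | e
    · have e0 : y 0 = 0 := by nlinarith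
      refine ⟨2, ?_⟩
      ext i
      fin_cases i <;> simp [P, e, e0]
    · have e1 : y 1 = w * (1 - y 0) := by nlinarith
      have e0 : y 0 = 1 / 2 := by
        rw [e1] at b1 b2
        nlinarith
      refine ⟨0, ?_⟩
      ext i
      fin_cases i <;> simp [P, e1, e0]
      ring
    · have e1 : y 1 = w * (1 + y 0) := by nlinarith
      have e0 : y 0 = -1 / 2 := by
        rw [e1] at b0 b2
        nlinarith
      refine ⟨1, ?_⟩
      ext i
      fin_cases i <;> simp [P, e1, e0]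
      ring

end Pool.Agent.Results.MP_ab57f0_an.LongTrap
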